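import Pool.Agent.Helper90.E5.PDL

/-! MP_efd95c_co, wheels: rows MIR, MIRW (mirror image). -/

set_option autoImplicit false

open scoped MeasureTheory ENNReal
open Complex

namespace E5

theorem ch_comm90 (r s θ : ℝ) : ch r s θ = ch s r θ := (st_TSYM r s θ).1
theorem hd_comm90 (r s θ : ℝ) : hd r s θ = hd s r θ := (st_TSYM r s θ).2.1

theorem RC.swap90 {x y z : ℝ} (h : RC x y z) : RC y x z := by
  obtain ⟨h1, h2, h3, h4⟩ := h
  exact ⟨by linarith, by linarith, by linarith, by linarith⟩
theorem RC.swap90' {x y z : ℝ} (h : RC x y z) : RC y z x := by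
  obtain ⟨h1, h2, h3, h4⟩ := h
  exact ⟨by linarith, by linarith, by linarith, by linarith⟩

theorem WQD.mir90 {ra rx ry rb b1 b2 b3 : ℝ} (h : WQD ra rx ry rb b1 b2 b3) :
    WQD rb ry rx ra b3 b2 b1 := by
  have e1 : b3 + b2 = b2 + b3 := add_comm _ _
  have e2 : b2 + b3 + b1 = b1 + b2 + b3 := by ring
  have e3 : b2 + b1 = b1 + b2 := add_comm _ _
  have c1 := ch_comm90 rb ry b3
  have c2 := ch_comm90 ry rx b2
  have c3 := ch_comm90 rx ra b1
  have c4 := ch_comm90 rb rx (b2 + b3)
  have c5 := ch_comm90 ry ra (b1 + b2)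
  have c6 := ch_comm90 rb ra (b1 + b2 + b3)
  have d1 := hd_comm90 rb ry b3
  have d2 := hd_comm90 ry rx b2
  have d3 := hd_comm90 rx ra b1
  have d4 := hd_comm90 rb rx (b2 + b3)
  have d5 := hd_comm90 ry ra (b1 + b2)
  have d6 := hd_comm90 rb ra (b1 + b2 + b3)
  constructor
  case ra0 => exact h.rb0
  case rx0 => exact h.ry0
  case ry0 => exact h.rx0
  case rb0 => exact h.ra0
  case ra2 => exact h.rb2
  case rx2 => exact h.ry2
  case ry2 => exact h.rx2
  case rb2 => exact h.ra2
  case b10 => exact h.b30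
  case b20 => exact h.b20
  case b30 => exact h.b10
  all_goals try simp only [e1, e2, e3, c1, c2, c3, c4, c5, c6, d1, d2, d3, d4, d5, d6]
  case bs => exact h.bs
  case cax2 => exact h.cyb2
  case cxy2 => exact h.cxy2
  case cyb2 => exact h.cax2
  case cay2 => exact h.cxb2
  case cxb2 => exact h.cay2
  case cab2 => exact h.cab2
  case q0ax => exact h.q0yb.swap90
  case q0xy => exact h.q0xy.swap90
  case q0yb => exact h.q0ax.swap90
  case q0ay => exact h.q0xb.swap90
  case q0xb => exact h.q0ay.swap90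
  case q0ab => exact h.q0ab.swap90
  case qaxy => exact h.qxyb.swap90
  case qxyb => exact h.qaxy.swap90
  case qaxb => exact h.qayb.swap90
  case qayb => exact h.qaxb.swap90
  case q0 => linarith [h.q0]
  case qa => exact h.qb
  case qx => linarith [h.qy]
  case qy => linarith [h.qx]
  case qb => exact h.qa
  case a1 => exact h.z1
  case a2 => exact h.z2
  case a3 => exact h.z3
  case x1 => exact h.y1
  case x2 => exact h.y2
  case x3 => exact h.y3
  case x4 => have := h.y4; simp only [d5] at this; exact this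
  case y1 => exact h.x1
  case y2 => exact h.x2
  case y3 => exact h.x3
  case y4 => exact h.x4
  case z1 => exact h.a1
  case z2 => exact h.a2
  case z3 => exact h.a3
  case ua1 => exact h.uz1
  case ua2 => exact h.uz2
  case ux1 => exact h.uy1
  case ux2 => linarith [h.uy2]
  case uy1 => exact h.ux1
  case uy2 => linarith [h.ux2]
  case uz1 => exact h.ua1
  case uz2 => exact h.ua2
  case l1 => exact h.l6
  case l2 => exact h.l5
  case l3 => exact h.l4
  case l4 => exact h.l3
  case l5 => exact h.l2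
  case l6 => exact h.l1
  case k1 => exact h.k2
  case k2 => exact h.k1
  case k3 => exact h.k5
  case k4 => exact h.k6
  case k5 => exact h.k3
  case k6 => exact h.k4
  case k7 => linarith [h.k7]
  case k8 => linarith [h.k8]
  case k9 => exact h.k10
  case k10 => exact h.k9
  case vb1 => exact h.va1
  case vb2 => exact h.va2
  case va1 => have := h.vb1; simp only [d1, d6] at this; exact this
  case va2 => have := h.vb2; simp only [d1, d4] at this; exact this

theorem WPD.mir90 {Ra Rx Ry Rb t1 t2 t3 t4 : ℝ} (h : WPD Ra Rx Ry Rb t1 t2 t3 t4) :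
    WPD Rb Ry Rx Ra t3 t2 t1 t4 := by
  have e1 : t3 + t2 = t2 + t3 := add_comm _ _
  have e3 : t2 + t1 = t1 + t2 := add_comm _ _
  constructor
  case Ra0 => exact h.Rb0
  case Rx0 => exact h.Ry0
  case Ry0 => exact h.Rx0
  case Rb0 => exact h.Ra0
  case Ra2 => exact h.Rb2
  case Rx2 => exact h.Ry2
  case Ry2 => exact h.Rx2
  case Rb2 => exact h.Ra2
  case t10 => exact h.t30
  case t20 => exact h.t20
  case t30 => exact h.t10
  case t40 => exact h.t40
  case t1p => exact h.t3p
  case t2p => exact h.t2p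
  case t3p => exact h.t1p
  case t4p => exact h.t4p
  case ts => linarith [h.ts]
  case pay => rw [ch_comm90]; exact h.pxb
  case pyx => rw [ch_comm90]; exact h.pyx
  case pxb => rw [ch_comm90]; exact h.pay
  case pab => rw [ch_comm90]; exact h.pab
  case pax => rw [ch_comm90, e1]; exact h.pyb
  case pyb => rw [ch_comm90, e3]; exact h.pax
  case ea => exact h.eb
  case ey => linarith [h.ex]
  case ex => linarith [h.ey]
  case eb => exact h.ea
  case nay => rcases h.nxb with g | g; exacts [Or.inr (by linarith), Or.inl g]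
  case nyx => rcases h.nyx with g | g; exacts [Or.inr (by linarith), Or.inl (by linarith)]
  case nxb => rcases h.nay with g | g; exacts [Or.inr g, Or.inl (by linarith)]
  case nab => rcases h.nab with g | g; exacts [Or.inr g, Or.inl g]
  case fa => exact h.fb
  case fy => linarith [h.fx]
  case fx => linarith [h.fy]
  case fb => exact h.fa
  case hay => exact h.hbx
  case hya => exact h.hxb
  case hyx => exact h.hxy
  case hxy => exact h.hyx
  case hxb => exact h.hya
  case hbx => exact h.hay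
  case hab => exact h.hba
  case hba => exact h.hab
  case Hay => rw [hd_comm90]; linarith [h.Hxb]
  case Hyx => rw [hd_comm90]; linarith [h.Hyx]
  case Hxb => rw [hd_comm90]; linarith [h.Hay]
  case Hab => rw [hd_comm90]; linarith [h.Hab]

theorem st_MIR : ST_MIR := by
  intro ra rx ry rb Ra Rx Ry Rb b1 b2 b3 t1 t2 t3 t4 h
  have e1 : b3 + b2 = b2 + b3 := add_comm _ _
  have e2 : b2 + b3 + b1 = b1 + b2 + b3 := by ring
  have e3 : b2 + b1 = b1 + b2 := add_comm _ _
  have f1 : t3 + t2 = t2 + t3 := add_comm _ _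
  have f3 : t2 + t1 = t1 + t2 := add_comm _ _
  refine ⟨h.q.mir90, h.p.mir90, h.cb, h.cy, h.cx, h.ca, ?_, ?_, ?_, ?_, ?_, ?_, ?_, ?_, ?_, ?_, ?_, ?_⟩
  · rw [ch_comm90 rb rx, ch_comm90 Rb Rx, e1]; exact h.cxb
  · rw [ch_comm90 rx ry, ch_comm90 Rx Ry]; exact h.cyx
  · rw [ch_comm90 ry ra, ch_comm90 Ry Ra, e3]; exact h.cay
  · rw [ch_comm90 rb ra, ch_comm90 Rb Ra, e1, e2]; exact h.cab
  · rw [ch_comm90 rb ry, ch_comm90 Rb Ry, f1]; exact h.cyb
  · rw [ch_comm90 rx ra, ch_comm90 Rx Ra, f3]; exact h.cax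
  · rw [hd_comm90 Rb Rx, hd_comm90 Rx Ry, hd_comm90 Ry Ra, hd_comm90 Rb Ra, hd_comm90 rb ry,
      hd_comm90 ry rx, hd_comm90 rx ra]
    linarith [h.pos]
  · intro g1 g2 g3 g4 g5 g6 g7
    rw [ch_comm90 rb rx, ch_comm90 Rb Rx, e1] at g5
    rw [ch_comm90 rb ra, ch_comm90 Rb Ra, e1, e2] at g6
    have := h.gb g1 g2 g3 g4 g5 g6 g7
    linarith
  · intro g1 g2 g3 g4 g5 g6 g7
    rw [ch_comm90 ry ra, ch_comm90 Ry Ra, e3] at g5
    rw [ch_comm90 rb ra, ch_comm90 Rb Ra, e1, e2] at g6
    have := h.ga g1 g2 g3 g4 g5 g6 g7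
    linarith
  · intro g1 g2 g3 g4 g5 g6 g7
    obtain ⟨k1, k2⟩ := h.fyx g4 g3 g2 g1 (by linarith) (by linarith) (by linarith)
    exact ⟨by linarith, by linarith⟩
  · intro g1 g2 g3 g4 g5 g6 g7
    have := h.fay g4 g3 g2 g1 (by linarith) g6 (by linarith)
    linarith
  · intro g1 g2 g3 g4 g5 g6 g7
    have := h.fxb g4 g3 g2 g1 (by linarith) g6 (by linarith)
    linarith

theorem st_MIRW : ST_MIRW := by
  intro ra rx ry rb Ra Rx Ry Rb b1 b2 b3 t1 t2 t3 t4 w0a w0x w0y w0b way wyx wxb wab
    χa χx χy χb ht h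
  have e1 : b3 + b2 = b2 + b3 := add_comm _ _
  have e2 : b2 + b3 + b1 = b1 + b2 + b3 := by ring
  have e3 : b2 + b1 = b1 + b2 := add_comm _ _
  have f1 : t3 + t2 = t2 + t3 := add_comm _ _
  have f3 : t2 + t1 = t1 + t2 := add_comm _ _
  constructor
  case n0a => exact h.n0b
  case n0x => exact h.n0y
  case n0y => exact h.n0x
  case n0b => exact h.n0a
  case nay => exact h.nxb
  case nyx => exact h.nyx
  case nxb => exact h.nay
  case nab => exact h.nab
  case c0a => exact h.c0b
  case c0x => exact h.c0y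
  case c0y => exact h.c0x
  case c0b => exact h.c0a
  case cay => rw [ch_comm90 rb rx, ch_comm90 Rb Rx, e1]; exact h.cxb
  case cyx => rw [ch_comm90 rx ry, ch_comm90 Rx Ry]; exact h.cyx
  case cxb => rw [ch_comm90 ry ra, ch_comm90 Ry Ra, e3]; exact h.cay
  case cab => rw [ch_comm90 rb ra, ch_comm90 Rb Ra, e1, e2]; exact h.cab
  case χa0 => exact h.χb0
  case χx0 => exact h.χy0
  case χy0 => exact h.χx0
  case χb0 => exact h.χa0
  case χas => exact h.χbs
  case χxs => intro g; rw [add_comm]; exact h.χys g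
  case χys => intro g; rw [add_comm]; exact h.χxs g
  case χbs => exact h.χas
  case QA => rw [e1, e2]; exact h.QB
  case QB => rw [e3, e1, e2]; exact h.QA
  case QX => rw [e3]; exact h.QY
  case QY => rw [e1]; exact h.QX
  case Q0 =>
    have g := congrArg (starRingEnd ℂ) h.Q0
    simp only [map_add, map_mul, Complex.conj_ofReal, we_conj55] at g
    have g2 := congrArg (fun z => z * AX.e (b1 + b2 + b3)) g
    simp only [add_mul, mul_assoc, ← we_add55] at g2
    have h0 : AX.e 0 = 1 := by unfold AX.e; simp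
    have k1 : -b1 + (b1 + b2 + b3) = b2 + b3 := by ring
    have k2 : -(b1 + b2) + (b1 + b2 + b3) = b3 := by ring
    have k3 : -(b1 + b2 + b3) + (b1 + b2 + b3) = 0 := by ring
    rw [k1, k2, k3, h0] at g2
    rw [e1, e2]
    linear_combination g2
  case PA => rw [f1]; exact h.PB
  case PB => rw [f3]; exact h.PA
  case PX =>
    rw [f1]
    exact h.PY
  case PY =>
    rw [f3]
    exact h.PX
  case P0 =>
    have g := congrArg (starRingEnd ℂ) h.P0
    simp only [map_add, map_mul, Complex.conj_ofReal, we_conj55, map_zero] at g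
    have g2 := congrArg (fun z => z * AX.e (-t4)) g
    simp only [add_mul, mul_assoc, ← we_add55, zero_mul] at g2
    have h0 : AX.e 0 = 1 := by unfold AX.e; simp
    have k1 : AX.e (-t1 + -t4) = AX.e (t2 + t3) := by
      rw [← we_two55 (-t1 + -t4)]
      congr 1
      linarith
    have k2 : AX.e (-(t1 + t2) + -t4) = AX.e t3 := by
      rw [← we_two55 (-(t1 + t2) + -t4)]
      congr 1
      linarith
    have k3 : - -t4 + -t4 = 0 := by ring
    rw [k1, k2, k3, h0] at g2
    rw [f1]
    linear_combination g2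

end E5
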