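import Pool.Agent.Helper90.E5.VTX
import Pool.Agent.Helper90.E5.MIR
import Pool.Agent.Helper35.E5.RQB
import Pool.Agent.Helper49.E5.WQ

/-! MP_efd95c_co, wheels: first half of row RQ (triples, exterior angles, lenses at the hub). -/

set_option autoImplicit false
set_option linter.unusedVariables false

open scoped MeasureTheory ENNReal
open Complex

namespace E5

theorem lens90 {r s θ : ℝ} (hr : 0 < r) (hs : 0 < s) (hr2 : r < 2) (hs2 : s < 2) (h0' : 0 < θ)
    (h1 : θ < Real.pi) (hc : ch r s θ < 2) (h : h0 r < h0 s + hd r s θ) : h0 r < θ + h0 s := by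
  have hpi := Real.pi_pos
  have s1 : Real.sin (h0 r) = r / 2 := Real.sin_arcsin (by linarith) (by linarith)
  have s2 : Real.sin (h0 s) = s / 2 := Real.sin_arcsin (by linarith) (by linarith)
  have r0 : 0 < h0 r := Real.arcsin_pos.mpr (by linarith)
  have s0 : 0 < h0 s := Real.arcsin_pos.mpr (by linarith)
  have rp : h0 r < Real.pi / 2 := Real.arcsin_lt_pi_div_two.mpr (by linarith)
  have sp : h0 s < Real.pi / 2 := Real.arcsin_lt_pi_div_two.mpr (by linarith)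
  have hcp := tri_ch_pos (r := r) hs h0' h1
  have s3 : Real.sin (hd r s θ) = ch r s θ / 2 := Real.sin_arcsin (by linarith) (by linarith)
  have d0 : 0 < hd r s θ := Real.arcsin_pos.mpr (by linarith)
  have dp : hd r s θ < Real.pi / 2 := Real.arcsin_lt_pi_div_two.mpr (by linarith)
  by_contra hlt
  push Not at hlt
  have hcos : Real.cos (h0 r - h0 s) ≤ Real.cos θ :=
    Real.cos_le_cos_of_nonneg_of_le_pi h0'.le (by linarith) (by linarith)
  have hsq : Real.sin (hd r s θ) ^ 2 ≤ Real.sin (h0 r - h0 s) ^ 2 := by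
    have e1 : Real.sin (hd r s θ) ^ 2 = Real.sin (h0 r) ^ 2 + Real.sin (h0 s) ^ 2 -
        2 * Real.sin (h0 r) * Real.sin (h0 s) * Real.cos θ := by
      rw [s3, s1, s2]
      have := ch_sq r s θ
      linear_combination this / 4
    have e2 : Real.sin (h0 r - h0 s) ^ 2 = Real.sin (h0 r) ^ 2 + Real.sin (h0 s) ^ 2 -
        2 * Real.sin (h0 r) * Real.sin (h0 s) * Real.cos (h0 r - h0 s) := by
      rw [Real.sin_sub, Real.cos_sub]
      have h1 := Real.sin_sq_add_cos_sq (h0 r)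
      have h2 := Real.sin_sq_add_cos_sq (h0 s)
      have h3 : Real.cos (h0 r) ^ 2 = 1 - Real.sin (h0 r) ^ 2 := by linarith
      have h4 : Real.cos (h0 s) ^ 2 = 1 - Real.sin (h0 s) ^ 2 := by linarith
      have : (Real.sin (h0 r) * Real.cos (h0 s) - Real.cos (h0 r) * Real.sin (h0 s)) ^ 2 =
          Real.sin (h0 r) ^ 2 * Real.cos (h0 s) ^ 2 + Real.cos (h0 r) ^ 2 * Real.sin (h0 s) ^ 2 -
            2 * (Real.sin (h0 r) * Real.sin (h0 s) * Real.cos (h0 r) * Real.cos (h0 s)) := by ring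
      rw [this, h3, h4]
      ring
    rw [e1, e2]
    have p : 0 < Real.sin (h0 r) * Real.sin (h0 s) := by rw [s1, s2]; positivity
    nlinarith
  have p1 : 0 < Real.sin (hd r s θ) := by rw [s3]; linarith
  have p2 : 0 ≤ Real.sin (h0 r - h0 s) :=
    Real.sin_nonneg_of_nonneg_of_le_pi (by linarith) (by linarith)
  have h5 : Real.sin (hd r s θ) ≤ Real.sin (h0 r - h0 s) := by
    have := abs_le_of_sq_le_sq hsq p2
    exact (abs_le.mp this).2
  have h6 : hd r s θ ≤ h0 r - h0 s := by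
    by_contra hgt
    push Not at hgt
    have := Real.sin_lt_sin_of_lt_of_le_pi_div_two (by linarith) dp.le hgt
    linarith
  linarith

open R35 in
/-- first half of row RQ -/
theorem rqh90 (hWQ : ST_WQ) (q : Fin 5 → ℂ) (aq bq : ℤ → ℝ) (H : HD q 5 gQ aq bq)
    (hab : ∀ k, aq k < bq k) (h0q : q 0 = 0) :
    ∃ φ b1 b2 b3 : ℝ, q 1 = (‖q 1‖ : ℂ) * AX.e φ ∧ q 2 = (‖q 2‖ : ℂ) * AX.e (φ + b1) ∧
    q 3 = (‖q 3‖ : ℂ) * AX.e (φ + b1 + b2) ∧ q 4 = (‖q 4‖ : ℂ) * AX.e (φ + b1 + b2 + b3) ∧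
    PQ35 ‖q 1‖ ‖q 2‖ ‖q 3‖ ‖q 4‖ b1 b2 b3 ∧
    (b1 + b2 + b3 + h0 ‖q 1‖ + h0 ‖q 4‖ < Real.pi ∧
      UU ‖q 1‖ ‖q 2‖ b1 + h0 ‖q 1‖ < Real.pi ∧
      UU ‖q 2‖ ‖q 1‖ b1 + UU ‖q 2‖ ‖q 3‖ b2 < Real.pi ∧
      UU ‖q 3‖ ‖q 2‖ b2 + UU ‖q 3‖ ‖q 4‖ b3 < Real.pi ∧
      UU ‖q 4‖ ‖q 3‖ b3 + h0 ‖q 4‖ < Real.pi) ∧
    (h0 ‖q 1‖ < b1 + h0 ‖q 2‖ ∧ h0 ‖q 2‖ < b1 + h0 ‖q 1‖ ∧ h0 ‖q 2‖ < b2 + h0 ‖q 3‖ ∧
      h0 ‖q 3‖ < b2 + h0 ‖q 2‖ ∧ h0 ‖q 3‖ < b3 + h0 ‖q 4‖ ∧ h0 ‖q 4‖ < b3 + h0 ‖q 3‖) := by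
  obtain ⟨φ, b1, b2, b3, p1, p2, p3, ps, hn, c12, c23, c34, e1, e2, e3, e4, x0, xa, xx, xy, xb, -⟩ :=
    hWQ q aq bq H h0q
  have hpi := Real.pi_pos
  obtain ⟨ra0, ra2⟩ := hn 1 (by decide)
  obtain ⟨rx0, rx2⟩ := hn 2 (by decide)
  obtain ⟨ry0, ry2⟩ := hn 3 (by decide)
  obtain ⟨rb0, rb2⟩ := hn 4 (by decide)
  have f0 := hab 0
  have f1 := hab 1
  have f2 := hab 2
  have f3 := hab 3
  have f4 := hab 4
  have g0 : gQ 0 = 0 := by decide
  have g1 : gQ 1 = 1 := by decide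
  have g2 : gQ 2 = 2 := by decide
  have g3 : gQ 3 = 3 := by decide
  have g4 : gQ 4 = 4 := by decide
  -- triangle inequalities
  have T : ∀ i j l : Fin 5, j ≠ i → l ≠ i →
      AX.dl 1 (q j) (q l) < AX.dl 1 (q i) (q j) + AX.dl 1 (q i) (q l) := by
    intro i j l hj hl
    have hi : ∃ k : ℤ, gQ k = i := by
      fin_cases i
      · exact ⟨0, g0⟩
      · exact ⟨1, g1⟩
      · exact ⟨2, g2⟩
      · exact ⟨3, g3⟩
      · exact ⟨4, g4⟩
    obtain ⟨k, hk⟩ := hi
    have h := tri90 H (k := k) (hab k) (j := j) (l := l) (by rw [hk]; exact fun e => hj (H.inj e))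
      (by rw [hk]; exact fun e => hl (H.inj e))
    rwa [hk] at h
  -- polar forms
  generalize hra : ‖q 1‖ = ra at *
  generalize hrx : ‖q 2‖ = rx at *
  generalize hry : ‖q 3‖ = ry at *
  generalize hrb : ‖q 4‖ = rb at *
  have e3' : q 3 = (ry : ℂ) * AX.e (φ + (b1 + b2)) := by rw [← add_assoc]; exact e3
  have e4a : q 4 = (rb : ℂ) * AX.e (φ + (b1 + b2 + b3)) := by
    rw [show φ + (b1 + b2 + b3) = φ + b1 + b2 + b3 by ring]; exact e4
  have e4x : q 4 = (rb : ℂ) * AX.e (φ + b1 + (b2 + b3)) := by rw [← add_assoc]; exact e4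
  have e1x : q 1 = (ra : ℂ) * AX.e (φ + b1 - b1) := by rw [add_sub_cancel_right]; exact e1
  have e1y : q 1 = (ra : ℂ) * AX.e (φ + b1 + b2 - (b1 + b2)) := by
    rw [show φ + b1 + b2 - (b1 + b2) = φ by ring]; exact e1
  have e1b : q 1 = (ra : ℂ) * AX.e (φ + b1 + b2 + b3 - (b1 + b2 + b3)) := by
    rw [show φ + b1 + b2 + b3 - (b1 + b2 + b3) = φ by ring]; exact e1
  have e2y : q 2 = (rx : ℂ) * AX.e (φ + b1 + b2 - b2) := by rw [add_sub_cancel_right]; exact e2
  have e2b : q 2 = (rx : ℂ) * AX.e (φ + b1 + b2 + b3 - (b2 + b3)) := by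
    rw [show φ + b1 + b2 + b3 - (b2 + b3) = φ + b1 by ring]; exact e2
  have e3b : q 3 = (ry : ℂ) * AX.e (φ + b1 + b2 + b3 - b3) := by rw [add_sub_cancel_right]; exact e3
  -- vertices
  obtain ⟨s0, -, S0, L0⟩ := hub90 H f0 (by rw [g0]; exact h0q) ra0 e1
  obtain ⟨s1, -, S1, L1, -⟩ := vtx90 H f1 h0q ra0 (by rw [g1]; exact e1)
  obtain ⟨s2, -, S2, L2, R2⟩ := vtx90 H f2 h0q rx0 (by rw [g2]; exact e2)
  obtain ⟨s3, -, S3, L3, R3⟩ := vtx90 H f3 h0q ry0 (by rw [g3]; exact e3)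
  obtain ⟨s4, -, S4, -, R4⟩ := vtx90 H f4 h0q rb0 (by rw [g4]; exact e4)
  have H2 := (L0 2 _ b1 rx0 (by linarith) (by linarith) e2).2
  have H3 := (L0 3 _ (b1 + b2) ry0 (by linarith) (by linarith) e3').2
  have H4 := (L0 4 _ (b1 + b2 + b3) rb0 (by linarith) (by linarith) e4a).2
  obtain ⟨C12, D12⟩ := L1 2 _ b1 rx0 (by linarith) (by linarith) e2
  obtain ⟨C13, D13⟩ := L1 3 _ (b1 + b2) ry0 (by linarith) (by linarith) e3'
  obtain ⟨C14, D14⟩ := L1 4 _ (b1 + b2 + b3) rb0 (by linarith) (by linarith) e4a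
  obtain ⟨C21, D21⟩ := R2 1 _ b1 ra0 (by linarith) (by linarith) e1x
  obtain ⟨C23, D23⟩ := L2 3 _ b2 ry0 (by linarith) (by linarith) e3
  obtain ⟨C24, D24⟩ := L2 4 _ (b2 + b3) rb0 (by linarith) (by linarith) e4x
  obtain ⟨C31, D31⟩ := R3 1 _ (b1 + b2) ra0 (by linarith) (by linarith) e1y
  obtain ⟨C32, D32⟩ := R3 2 _ b2 rx0 (by linarith) (by linarith) e2y
  obtain ⟨C34, D34⟩ := L3 4 _ b3 rb0 (by linarith) (by linarith) e4
  obtain ⟨C41, D41⟩ := R4 1 _ (b1 + b2 + b3) ra0 (by linarith) (by linarith) e1b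
  obtain ⟨C42, D42⟩ := R4 2 _ (b2 + b3) rx0 (by linarith) (by linarith) e2b
  obtain ⟨C43, D43⟩ := R4 3 _ b3 ry0 (by linarith) (by linarith) e3b
  rw [abs_lt] at S0 S1 S2 S3 S4 H2 H3 H4 D12 D13 D14 D21 D23 D24 D31 D32 D34 D41 D42 D43
  have U12 := tri_sum (r := ra) (s := rx) (θ := b1) ra0 rx0 (by linarith) (by linarith)
  rw [hd_comm90 rx ra b1] at D21
  have U13 := tri_sum (r := ra) (s := ry) (θ := (b1 + b2)) ra0 ry0 (by linarith) (by linarith)
  rw [hd_comm90 ry ra (b1 + b2)] at D31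
  have U14 := tri_sum (r := ra) (s := rb) (θ := (b1 + b2 + b3)) ra0 rb0 (by linarith) (by linarith)
  rw [hd_comm90 rb ra (b1 + b2 + b3)] at D41
  have U23 := tri_sum (r := rx) (s := ry) (θ := b2) rx0 ry0 (by linarith) (by linarith)
  rw [hd_comm90 ry rx b2] at D32
  have U24 := tri_sum (r := rx) (s := rb) (θ := (b2 + b3)) rx0 rb0 (by linarith) (by linarith)
  rw [hd_comm90 rb rx (b2 + b3)] at D42
  have U34 := tri_sum (r := ry) (s := rb) (θ := b3) ry0 rb0 (by linarith) (by linarith)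
  rw [hd_comm90 rb ry b3] at D43
  have E01 : AX.dl 1 (q 0) (q 1) = h0 ra := by
    rw [h0q, e1]; exact ((st_PDL ra 0 _ 0).2.2.1 ra0.le).2
  have E10 : AX.dl 1 (q 1) (q 0) = h0 ra := by rw [← E01]; unfold AX.dl; rw [dist_comm]
  have E02 : AX.dl 1 (q 0) (q 2) = h0 rx := by
    rw [h0q, e2]; exact ((st_PDL rx 0 _ 0).2.2.1 rx0.le).2
  have E20 : AX.dl 1 (q 2) (q 0) = h0 rx := by rw [← E02]; unfold AX.dl; rw [dist_comm]
  have E03 : AX.dl 1 (q 0) (q 3) = h0 ry := by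
    rw [h0q, e3]; exact ((st_PDL ry 0 _ 0).2.2.1 ry0.le).2
  have E30 : AX.dl 1 (q 3) (q 0) = h0 ry := by rw [← E03]; unfold AX.dl; rw [dist_comm]
  have E04 : AX.dl 1 (q 0) (q 4) = h0 rb := by
    rw [h0q, e4]; exact ((st_PDL rb 0 _ 0).2.2.1 rb0.le).2
  have E40 : AX.dl 1 (q 4) (q 0) = h0 rb := by rw [← E04]; unfold AX.dl; rw [dist_comm]
  have E12 : AX.dl 1 (q 1) (q 2) = hd ra rx b1 := by
    rw [e1, e2]; exact (st_PDL _ _ _ _).2.1
  have E21 : AX.dl 1 (q 2) (q 1) = hd ra rx b1 := by rw [← E12]; unfold AX.dl; rw [dist_comm]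
  have E13 : AX.dl 1 (q 1) (q 3) = hd ra ry (b1 + b2) := by
    rw [e1, e3']; exact (st_PDL _ _ _ _).2.1
  have E31 : AX.dl 1 (q 3) (q 1) = hd ra ry (b1 + b2) := by rw [← E13]; unfold AX.dl; rw [dist_comm]
  have E14 : AX.dl 1 (q 1) (q 4) = hd ra rb (b1 + b2 + b3) := by
    rw [e1, e4a]; exact (st_PDL _ _ _ _).2.1
  have E41 : AX.dl 1 (q 4) (q 1) = hd ra rb (b1 + b2 + b3) := by rw [← E14]; unfold AX.dl; rw [dist_comm]
  have E23 : AX.dl 1 (q 2) (q 3) = hd rx ry b2 := by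
    rw [e2, e3]; exact (st_PDL _ _ _ _).2.1
  have E32 : AX.dl 1 (q 3) (q 2) = hd rx ry b2 := by rw [← E23]; unfold AX.dl; rw [dist_comm]
  have E24 : AX.dl 1 (q 2) (q 4) = hd rx rb (b2 + b3) := by
    rw [e2, e4x]; exact (st_PDL _ _ _ _).2.1
  have E42 : AX.dl 1 (q 4) (q 2) = hd rx rb (b2 + b3) := by rw [← E24]; unfold AX.dl; rw [dist_comm]
  have E34 : AX.dl 1 (q 3) (q 4) = hd ry rb b3 := by
    rw [e3, e4]; exact (st_PDL _ _ _ _).2.1
  have E43 : AX.dl 1 (q 4) (q 3) = hd ry rb b3 := by rw [← E34]; unfold AX.dl; rw [dist_comm]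
  have Q012 : RC (h0 ra) (h0 rx) (hd ra rx b1) := by
    refine ⟨?_, ?_, ?_, ?_⟩
    · have := T 2 0 1 (by decide) (by decide)
      rw [E01, E20, E21] at this
      linarith
    · have := T 1 0 2 (by decide) (by decide)
      rw [E02, E10, E12] at this
      linarith
    · have := T 0 1 2 (by decide) (by decide)
      rw [E12, E01, E02] at this
      linarith
    · linarith [S0.1, S0.2, H2.1, H2.2, S1.1, S1.2, D12.1, D12.2, S2.1, S2.2, D21.1, D21.2, U12]
  have Q023 : RC (h0 rx) (h0 ry) (hd rx ry b2) := by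
    refine ⟨?_, ?_, ?_, ?_⟩
    · have := T 3 0 2 (by decide) (by decide)
      rw [E02, E30, E32] at this
      linarith
    · have := T 2 0 3 (by decide) (by decide)
      rw [E03, E20, E23] at this
      linarith
    · have := T 0 2 3 (by decide) (by decide)
      rw [E23, E02, E03] at this
      linarith
    · linarith [H2.1, H2.2, H3.1, H3.2, S2.1, S2.2, D23.1, D23.2, S3.1, S3.2, D32.1, D32.2, U23]
  have Q034 : RC (h0 ry) (h0 rb) (hd ry rb b3) := by
    refine ⟨?_, ?_, ?_, ?_⟩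
    · have := T 4 0 3 (by decide) (by decide)
      rw [E03, E40, E43] at this
      linarith
    · have := T 3 0 4 (by decide) (by decide)
      rw [E04, E30, E34] at this
      linarith
    · have := T 0 3 4 (by decide) (by decide)
      rw [E34, E03, E04] at this
      linarith
    · linarith [H3.1, H3.2, H4.1, H4.2, S3.1, S3.2, D34.1, D34.2, S4.1, S4.2, D43.1, D43.2, U34]
  have Q013 : RC (h0 ra) (h0 ry) (hd ra ry (b1 + b2)) := by
    refine ⟨?_, ?_, ?_, ?_⟩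
    · have := T 3 0 1 (by decide) (by decide)
      rw [E01, E30, E31] at this
      linarith
    · have := T 1 0 3 (by decide) (by decide)
      rw [E03, E10, E13] at this
      linarith
    · have := T 0 1 3 (by decide) (by decide)
      rw [E13, E01, E03] at this
      linarith
    · linarith [S0.1, S0.2, H3.1, H3.2, S1.1, S1.2, D13.1, D13.2, S3.1, S3.2, D31.1, D31.2, U13]
  have Q024 : RC (h0 rx) (h0 rb) (hd rx rb (b2 + b3)) := by
    refine ⟨?_, ?_, ?_, ?_⟩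
    · have := T 4 0 2 (by decide) (by decide)
      rw [E02, E40, E42] at this
      linarith
    · have := T 2 0 4 (by decide) (by decide)
      rw [E04, E20, E24] at this
      linarith
    · have := T 0 2 4 (by decide) (by decide)
      rw [E24, E02, E04] at this
      linarith
    · linarith [H2.1, H2.2, H4.1, H4.2, S2.1, S2.2, D24.1, D24.2, S4.1, S4.2, D42.1, D42.2, U24]
  have Q014 : RC (h0 ra) (h0 rb) (hd ra rb (b1 + b2 + b3)) := by
    refine ⟨?_, ?_, ?_, ?_⟩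
    · have := T 4 0 1 (by decide) (by decide)
      rw [E01, E40, E41] at this
      linarith
    · have := T 1 0 4 (by decide) (by decide)
      rw [E04, E10, E14] at this
      linarith
    · have := T 0 1 4 (by decide) (by decide)
      rw [E14, E01, E04] at this
      linarith
    · linarith [S0.1, S0.2, H4.1, H4.2, S1.1, S1.2, D14.1, D14.2, S4.1, S4.2, D41.1, D41.2, U14]
  have Q123 : RC (hd ra rx b1) (hd rx ry b2) (hd ra ry (b1 + b2)) := by
    refine ⟨?_, ?_, ?_, ?_⟩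
    · have := T 3 2 1 (by decide) (by decide)
      rw [E21, E32, E31] at this
      linarith
    · have := T 1 2 3 (by decide) (by decide)
      rw [E23, E12, E13] at this
      linarith
    · have := T 2 1 3 (by decide) (by decide)
      rw [E13, E21, E23] at this
      linarith
    · linarith [D12.1, D12.2, D13.1, D13.2, D21.1, D21.2, D23.1, D23.2, D31.1, D31.2, D32.1, D32.2, U12, U23, U13]
  have Q234 : RC (hd rx ry b2) (hd ry rb b3) (hd rx rb (b2 + b3)) := by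
    refine ⟨?_, ?_, ?_, ?_⟩
    · have := T 4 3 2 (by decide) (by decide)
      rw [E32, E43, E42] at this
      linarith
    · have := T 2 3 4 (by decide) (by decide)
      rw [E34, E23, E24] at this
      linarith
    · have := T 3 2 4 (by decide) (by decide)
      rw [E24, E32, E34] at this
      linarith
    · linarith [D23.1, D23.2, D24.1, D24.2, D32.1, D32.2, D34.1, D34.2, D42.1, D42.2, D43.1, D43.2, U23, U34, U24]
  have Q124 : RC (hd ra rx b1) (hd rx rb (b2 + b3)) (hd ra rb (b1 + b2 + b3)) := by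
    refine ⟨?_, ?_, ?_, ?_⟩
    · have := T 4 2 1 (by decide) (by decide)
      rw [E21, E42, E41] at this
      linarith
    · have := T 1 2 4 (by decide) (by decide)
      rw [E24, E12, E14] at this
      linarith
    · have := T 2 1 4 (by decide) (by decide)
      rw [E14, E21, E24] at this
      linarith
    · linarith [D12.1, D12.2, D14.1, D14.2, D21.1, D21.2, D24.1, D24.2, D41.1, D41.2, D42.1, D42.2, U12, U24, U14]
  have Q134 : RC (hd ra ry (b1 + b2)) (hd ry rb b3) (hd ra rb (b1 + b2 + b3)) := by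
    refine ⟨?_, ?_, ?_, ?_⟩
    · have := T 4 3 1 (by decide) (by decide)
      rw [E31, E43, E41] at this
      linarith
    · have := T 1 3 4 (by decide) (by decide)
      rw [E34, E13, E14] at this
      linarith
    · have := T 3 1 4 (by decide) (by decide)
      rw [E14, E31, E34] at this
      linarith
    · linarith [D13.1, D13.2, D14.1, D14.2, D31.1, D31.2, D34.1, D34.2, D41.1, D41.2, D43.1, D43.2, U13, U34, U14]
  refine ⟨φ, b1, b2, b3, e1, e2, e3, e4, ⟨ra0, rx0, ry0, rb0, ra2, rx2, ry2, rb2, p1, p2, p3, ps,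
    C12, C23, C34, C13, C24, C14, Q012, Q023, Q034, Q013, Q024, Q014, Q123, Q234, Q124, Q134⟩,
    ⟨by linarith, by linarith, by linarith, by linarith, by linarith⟩, ?_, ?_, ?_, ?_, ?_, ?_⟩
  · exact lens90 ra0 rx0 ra2 rx2 p1 (by linarith) C12 Q012.1
  · exact lens90 rx0 ra0 rx2 ra2 p1 (by linarith) C21 (by rw [hd_comm90]; exact Q012.2.1)
  · exact lens90 rx0 ry0 rx2 ry2 p2 (by linarith) C23 Q023.1
  · exact lens90 ry0 rx0 ry2 rx2 p2 (by linarith) C32 (by rw [hd_comm90]; exact Q023.2.1)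
  · exact lens90 ry0 rb0 ry2 rb2 p3 (by linarith) C34 Q034.1
  · exact lens90 rb0 ry0 rb2 ry2 p3 (by linarith) C43 (by rw [hd_comm90]; exact Q034.2.1)

end E5
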