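import Pool.Agent.Helper90.E5.PDL

/-! MP_efd95c_co, wheels: row KCC (effective loads of `p`). -/

set_option autoImplicit false
set_option linter.unusedSimpArgs false

open scoped MeasureTheory ENNReal
open Complex

namespace E5

theorem gC_ne90 (k : ℤ) : gC k ≠ 0 := by
  unfold gC
  split_ifs <;> decide

theorem keyA90 (p : Fin 5 → ℂ) (t1 t2 t3 t4 : ℝ) (h : t1 + t2 + t3 + t4 = 1) (i : Fin 5) :
    (t1 : ℂ) * cgrad p [1, 3, 2, 4] i + t2 * cgrad p [3, 2, 4] i + t3 * cgrad p [1, 3, 4] i +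
      t4 * cgrad p [3, 4] i =
      ∑ j, (KC p ![0, t2 + t4, t3 + t4, 0, 0] i j : ℂ) * (p i - p j) := by
  have hc : (t1 : ℂ) + t2 + t3 + t4 = 1 := by exact_mod_cast congrArg (fun x : ℝ => (x : ℂ)) h
  have c31 := om_comm90 (p 3) (p 1)
  have c41 := om_comm90 (p 4) (p 1)
  have c32 := om_comm90 (p 3) (p 2)
  have c42 := om_comm90 (p 4) (p 2)
  have c43 := om_comm90 (p 4) (p 3)
  fin_cases i
  · simp [cgrad, KC, Fin.sum_univ_five]
  · simp [cgrad, KC, Fin.sum_univ_five, c31, c41, c32, c42, c43]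
    linear_combination ((om (p 1) (p 3) : ℂ) * (p 1 - p 3) + om (p 1) (p 4) * (p 1 - p 4)) * hc
  · simp [cgrad, KC, Fin.sum_univ_five, c31, c41, c32, c42, c43]
    linear_combination ((om (p 2) (p 3) : ℂ) * (p 2 - p 3) + om (p 2) (p 4) * (p 2 - p 4)) * hc
  · simp [cgrad, KC, Fin.sum_univ_five, c31, c41, c32, c42, c43]
    linear_combination ((om (p 1) (p 3) : ℂ) * (p 3 - p 1) + om (p 2) (p 3) * (p 3 - p 2)) * hc
  · simp [cgrad, KC, Fin.sum_univ_five, c31, c41, c32, c42, c43]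
    linear_combination ((om (p 1) (p 4) : ℂ) * (p 4 - p 1) + om (p 2) (p 4) * (p 4 - p 2)) * hc

theorem keyB90 (p : Fin 5 → ℂ) (t1 t2 t3 t4 : ℝ) (h : t1 + t2 + t3 + t4 = 1) (i : Fin 5) :
    (t1 : ℂ) * cgrad p [1, 3, 2, 4] i + t2 * cgrad p [1, 2, 4] i + t3 * cgrad p [1, 3, 2] i +
      t4 * cgrad p [1, 2] i =
      ∑ j, (KC p ![0, 0, 0, t2 + t4, t3 + t4] i j : ℂ) * (p i - p j) := by
  have hc : (t1 : ℂ) + t2 + t3 + t4 = 1 := by exact_mod_cast congrArg (fun x : ℝ => (x : ℂ)) h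
  have c31 := om_comm90 (p 3) (p 1)
  have c41 := om_comm90 (p 4) (p 1)
  have c32 := om_comm90 (p 3) (p 2)
  have c42 := om_comm90 (p 4) (p 2)
  have c21 := om_comm90 (p 2) (p 1)
  fin_cases i
  · simp [cgrad, KC, Fin.sum_univ_five]
  · simp [cgrad, KC, Fin.sum_univ_five, c31, c41, c32, c42, c21]
    linear_combination ((om (p 1) (p 3) : ℂ) * (p 1 - p 3) + om (p 1) (p 4) * (p 1 - p 4)) * hc
  · simp [cgrad, KC, Fin.sum_univ_five, c31, c41, c32, c42, c21]
    linear_combination ((om (p 2) (p 3) : ℂ) * (p 2 - p 3) + om (p 2) (p 4) * (p 2 - p 4)) * hc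
  · simp [cgrad, KC, Fin.sum_univ_five, c31, c41, c32, c42, c21]
    linear_combination ((om (p 1) (p 3) : ℂ) * (p 3 - p 1) + om (p 2) (p 3) * (p 3 - p 2)) * hc
  · simp [cgrad, KC, Fin.sum_univ_five, c31, c41, c32, c42, c21]
    linear_combination ((om (p 1) (p 4) : ℂ) * (p 4 - p 1) + om (p 2) (p 4) * (p 4 - p 2)) * hc

theorem memA90 : ∀ S : Finset (Fin 5), 0 ∉ S → 3 ∈ S → 4 ∈ S →
    S ∈ ({{1, 2, 3, 4}, {2, 3, 4}, {1, 3, 4}, {3, 4}} : Finset (Finset (Fin 5))) := by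
  decide

theorem memB90 : ∀ S : Finset (Fin 5), 0 ∉ S → 1 ∈ S → 2 ∈ S →
    S ∈ ({{1, 2, 3, 4}, {1, 2, 4}, {1, 2, 3}, {1, 2}} : Finset (Finset (Fin 5))) := by
  decide

theorem sum4_90 {R : Type*} [AddCommMonoid R] (f : Finset (Fin 5) → R) (A B C D : Finset (Fin 5))
    (h1 : A ∉ ({B, C, D} : Finset (Finset (Fin 5)))) (h2 : B ∉ ({C, D} : Finset (Finset (Fin 5))))
    (h3 : C ≠ D) (h0 : ∀ S, S ∉ ({A, B, C, D} : Finset (Finset (Fin 5))) → f S = 0) :
    ∑ S, f S = f A + (f B + (f C + f D)) := by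
  rw [← Finset.sum_subset (Finset.subset_univ ({A, B, C, D} : Finset (Finset (Fin 5))))
    (fun S _ hS => h0 S hS), Finset.sum_insert h1, Finset.sum_insert h2,
    Finset.sum_pair h3]

theorem st_KCC : ST_KCC := by
  intro p ap bp θ hp hk h0 h1 hA
  -- facts on gC
  have c0 : gC 0 = 1 := by decide
  have c1 : gC 1 = 3 := by decide
  have c2 : gC 2 = 2 := by decide
  have c3 : gC 3 = 4 := by decide
  have hz : ∀ S, θ S ≠ 0 → 0 ∉ S := fun S hS h => by
    obtain ⟨k, hk⟩ := (hA S hS).2 0 h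
    exact gC_ne90 k hk
  have hcase : (ap 1 < bp 1 ∧ ap 3 < bp 3) ∨ (ap 0 < bp 0 ∧ ap 2 < bp 2) := by
    by_cases f1 : ap 1 < bp 1
    · by_cases f3 : ap 3 < bp 3
      · exact Or.inl ⟨f1, f3⟩
      · right
        have g2 := hk 2
        have g3 := hk 3
        norm_num at g2 g3
        have a4 := hp.aper 0
        have b4 := hp.bper 0
        norm_num at a4 b4
        refine ⟨?_, g2.resolve_right f3⟩
        have := g3.resolve_left f3
        linarith
    · right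
      have g0 := hk 0
      have g1 := hk 1
      norm_num at g0 g1
      exact ⟨g0.resolve_right f1, g1.resolve_left f1⟩
  -- a fat index is in all sets of positive weight
  have hfat : ∀ (k : ℤ) (S : Finset (Fin 5)), gC k ∉ S → ap k < bp k → θ S = 0 := by
    intro k S hS hf
    by_contra hne
    exact hS ((hA S hne).1 k hf)
  rcases hcase with ⟨f1, f3⟩ | ⟨f0, f2⟩
  · have hout : ∀ S, S ∉ ({{1, 2, 3, 4}, {2, 3, 4}, {1, 3, 4}, {3, 4}} : Finset (Finset (Fin 5))) →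
        θ S = 0 := by
      intro S hS
      by_contra hne
      exact hS (memA90 S (hz S hne) (c1 ▸ (hA S hne).1 1 f1) (c3 ▸ (hA S hne).1 3 f3))
    have hs : θ {1, 2, 3, 4} + (θ {2, 3, 4} + (θ {1, 3, 4} + θ {3, 4})) = 1 := by
      rw [← h1]
      exact (sum4_90 θ _ _ _ _ (by decide) (by decide) (by decide) hout).symm
    have n1 := h0 {1, 2, 3, 4}
    have n2 := h0 {2, 3, 4}
    have n3 := h0 {1, 3, 4}
    have n4 := h0 {3, 4}
    refine ⟨![0, θ {2, 3, 4} + θ {3, 4}, θ {1, 3, 4} + θ {3, 4}, 0, 0], ?_, rfl, ?_, ?_⟩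
    · intro i
      fin_cases i
      · exact ⟨le_rfl, zero_le_one⟩
      · exact ⟨add_nonneg n2 n4, by show θ {2, 3, 4} + θ {3, 4} ≤ 1; linarith⟩
      · exact ⟨add_nonneg n3 n4, by show θ {1, 3, 4} + θ {3, 4} ≤ 1; linarith⟩
      · exact ⟨le_rfl, zero_le_one⟩
      · exact ⟨le_rfl, zero_le_one⟩
    · intro k hχ
      by_contra hne
      have hf : ap k < bp k := lt_of_le_of_ne (hp.le k) hne
      refine hχ ?_
      have hg : gC k = 1 ∨ gC k = 3 ∨ gC k = 2 ∨ gC k = 4 := by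
        unfold gC; split_ifs <;> simp
      rcases hg with hg | hg | hg | hg
      · rw [hg]
        show θ {2, 3, 4} + θ {3, 4} = 0
        rw [hfat k {2, 3, 4} (by rw [hg]; decide) hf, hfat k {3, 4} (by rw [hg]; decide) hf, add_zero]
      · rw [hg]; rfl
      · rw [hg]
        show θ {1, 3, 4} + θ {3, 4} = 0
        rw [hfat k {1, 3, 4} (by rw [hg]; decide) hf, hfat k {3, 4} (by rw [hg]; decide) hf, add_zero]
      · rw [hg]; rfl
    · intro i
      rw [sum4_90 (fun S => (θ S : ℂ) * cgrad p (lst gC 4 S) i) {1, 2, 3, 4} {2, 3, 4} {1, 3, 4} {3, 4}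
        (by decide) (by decide) (by decide) (fun S hS => by
          show (θ S : ℂ) * _ = 0
          rw [hout S hS, Complex.ofReal_zero, zero_mul])]
      have l1 : lst gC 4 ({1, 2, 3, 4} : Finset (Fin 5)) = [1, 3, 2, 4] := by decide
      have l2 : lst gC 4 ({2, 3, 4} : Finset (Fin 5)) = [3, 2, 4] := by decide
      have l3 : lst gC 4 ({1, 3, 4} : Finset (Fin 5)) = [1, 3, 4] := by decide
      have l4 : lst gC 4 ({3, 4} : Finset (Fin 5)) = [3, 4] := by decide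
      rw [l1, l2, l3, l4, ← keyA90 p (θ {1, 2, 3, 4}) (θ {2, 3, 4}) (θ {1, 3, 4}) (θ {3, 4})
        (by linarith) i]
      ring
  · have hout : ∀ S, S ∉ ({{1, 2, 3, 4}, {1, 2, 4}, {1, 2, 3}, {1, 2}} : Finset (Finset (Fin 5))) →
        θ S = 0 := by
      intro S hS
      by_contra hne
      exact hS (memB90 S (hz S hne) (c0 ▸ (hA S hne).1 0 f0) (c2 ▸ (hA S hne).1 2 f2))
    have hs : θ {1, 2, 3, 4} + (θ {1, 2, 4} + (θ {1, 2, 3} + θ {1, 2})) = 1 := by
      rw [← h1]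
      exact (sum4_90 θ _ _ _ _ (by decide) (by decide) (by decide) hout).symm
    have n1 := h0 {1, 2, 3, 4}
    have n2 := h0 {1, 2, 4}
    have n3 := h0 {1, 2, 3}
    have n4 := h0 {1, 2}
    refine ⟨![0, 0, 0, θ {1, 2, 4} + θ {1, 2}, θ {1, 2, 3} + θ {1, 2}], ?_, rfl, ?_, ?_⟩
    · intro i
      fin_cases i
      · exact ⟨le_rfl, zero_le_one⟩
      · exact ⟨le_rfl, zero_le_one⟩
      · exact ⟨le_rfl, zero_le_one⟩
      · exact ⟨add_nonneg n2 n4, by show θ {1, 2, 4} + θ {1, 2} ≤ 1; linarith⟩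
      · exact ⟨add_nonneg n3 n4, by show θ {1, 2, 3} + θ {1, 2} ≤ 1; linarith⟩
    · intro k hχ
      by_contra hne
      have hf : ap k < bp k := lt_of_le_of_ne (hp.le k) hne
      refine hχ ?_
      have hg : gC k = 1 ∨ gC k = 3 ∨ gC k = 2 ∨ gC k = 4 := by
        unfold gC; split_ifs <;> simp
      rcases hg with hg | hg | hg | hg
      · rw [hg]; rfl
      · rw [hg]
        show θ {1, 2, 4} + θ {1, 2} = 0
        rw [hfat k {1, 2, 4} (by rw [hg]; decide) hf, hfat k {1, 2} (by rw [hg]; decide) hf, add_zero]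
      · rw [hg]; rfl
      · rw [hg]
        show θ {1, 2, 3} + θ {1, 2} = 0
        rw [hfat k {1, 2, 3} (by rw [hg]; decide) hf, hfat k {1, 2} (by rw [hg]; decide) hf, add_zero]
    · intro i
      rw [sum4_90 (fun S => (θ S : ℂ) * cgrad p (lst gC 4 S) i) {1, 2, 3, 4} {1, 2, 4} {1, 2, 3} {1, 2}
        (by decide) (by decide) (by decide) (fun S hS => by
          show (θ S : ℂ) * _ = 0
          rw [hout S hS, Complex.ofReal_zero, zero_mul])]
      have l1 : lst gC 4 ({1, 2, 3, 4} : Finset (Fin 5)) = [1, 3, 2, 4] := by decide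
      have l2 : lst gC 4 ({1, 2, 4} : Finset (Fin 5)) = [1, 2, 4] := by decide
      have l3 : lst gC 4 ({1, 2, 3} : Finset (Fin 5)) = [1, 3, 2] := by decide
      have l4 : lst gC 4 ({1, 2} : Finset (Fin 5)) = [1, 2] := by decide
      rw [l1, l2, l3, l4, ← keyB90 p (θ {1, 2, 3, 4}) (θ {1, 2, 4}) (θ {1, 2, 3}) (θ {1, 2})
        (by linarith) i]
      ring

end E5
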