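import Pool.Agent.Helper71.E5.WStmts2
import Pool.Agent.Helper55.E5.WARC
import Pool.Agent.Helper36.E5.PERHD

/-! MP_efd95c_co, wheels: rows PDL, KQQ, POS. -/

set_option autoImplicit false

open scoped MeasureTheory ENNReal
open Complex

namespace E5

theorem pdl_dist90 (r s φ θ : ℝ) :
    dist ((r : ℂ) * AX.e φ) ((s : ℂ) * AX.e (φ + θ)) = ch r s θ := by
  have h : (r : ℂ) * AX.e φ - (s : ℂ) * AX.e (φ + θ) = AX.e φ * ((r : ℂ) - (s : ℂ) * AX.e θ) := by
    rw [we_add55]; ring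
  rw [dist_eq_norm, h, norm_mul, we_norm55, one_mul]
  unfold ch
  rw [Complex.norm_def, Complex.normSq_apply]
  congr 1
  rw [Complex.sub_re, Complex.sub_im, Complex.re_ofReal_mul, Complex.im_ofReal_mul, we_re55,
    we_im55, Complex.ofReal_re, Complex.ofReal_im]
  have := Real.sin_sq_add_cos_sq θ
  linear_combination s ^ 2 * this

theorem st_PDL : ST_PDL := by
  intro r s φ θ
  refine ⟨pdl_dist90 r s φ θ, ?_, ?_, ?_, ?_⟩
  · unfold AX.dl hd
    rw [pdl_dist90, mul_one]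
  · intro hr
    have h1 : dist 0 ((r : ℂ) * AX.e φ) = r := by
      rw [dist_eq_norm, zero_sub, norm_neg, norm_mul, we_norm55, mul_one, Complex.norm_real,
        Real.norm_of_nonneg hr]
    refine ⟨h1, ?_⟩
    unfold AX.dl h0
    rw [h1, mul_one]
  · unfold ch
    rw [Real.cos_neg]
  · unfold ch
    rw [Real.cos_add_two_pi]

theorem lstQ90 : lst gQ 5 (Finset.univ : Finset (Fin 5)) = [0, 1, 2, 3, 4] := by
  decide

theorem om_comm90 (x y : ℂ) : om x y = om y x := by
  unfold om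
  rw [dist_comm]

theorem st_KQQ : ST_KQQ := by
  intro q i
  unfold cgrad
  rw [lstQ90]
  fin_cases i
  · simp [KQ, Fin.sum_univ_five]
    exact Or.inl (om_comm90 (q 4) (q 0))
  · simp [KQ, Fin.sum_univ_five]
    exact Or.inl (om_comm90 (q 0) (q 1))
  · simp [KQ, Fin.sum_univ_five]
    exact Or.inl (om_comm90 (q 1) (q 2))
  · simp [KQ, Fin.sum_univ_five]
    exact Or.inl (om_comm90 (q 2) (q 3))
  · simp [KQ, Fin.sum_univ_five]
    rw [om_comm90 (q 3) (q 4)]; ring

theorem st_POS : ST_POS := by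
  intro p q ap bp aq bq hm hp hq
  have h1 := hm.pos
  rw [PERHD 5 p 4 gC ap bp hp, PERHD 5 q 5 gQ aq bq hq] at h1
  have p0 := hp.step 0
  have p1 := hp.step 1
  have p2 := hp.step 2
  have p3 := hp.step 3
  have p4 := hp.aper 0
  have q0 := hq.step 0
  have q1 := hq.step 1
  have q2 := hq.step 2
  have q3 := hq.step 3
  have q4 := hq.step 4
  have q5 := hq.aper 0
  have c0 : gC 0 = 1 := by decide
  have c1 : gC 1 = 3 := by decide
  have c2 : gC 2 = 2 := by decide
  have c3 : gC 3 = 4 := by decide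
  have c4 : gC 4 = 1 := by decide
  have d0 : gQ 0 = 0 := by decide
  have d1 : gQ 1 = 1 := by decide
  have d2 : gQ 2 = 2 := by decide
  have d3 : gQ 3 = 3 := by decide
  have d4 : gQ 4 = 4 := by decide
  have d5 : gQ 5 = 0 := by decide
  norm_num at p0 p1 p2 p3 p4 q0 q1 q2 q3 q4 q5
  rw [c0, c1] at p0
  rw [c1, c2] at p1
  rw [c2, c3] at p2
  rw [c3, c4] at p3
  rw [d0, d1] at q0
  rw [d1, d2] at q1
  rw [d2, d3] at q2
  rw [d3, d4] at q3
  rw [d4, d5] at q4
  have s1 : AX.dl 1 (p 4) (p 1) = AX.dl 1 (p 1) (p 4) := by unfold AX.dl; rw [dist_comm]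
  have s2 : AX.dl 1 (q 4) (q 0) = AX.dl 1 (q 0) (q 4) := by unfold AX.dl; rw [dist_comm]
  unfold lg at p0 p1 p2 p3 q0 q1 q2 q3 q4
  rw [s1] at p3
  rw [s2] at q4
  simp only [Finset.sum_range_succ, Finset.sum_range_zero] at h1
  push_cast at h1
  linarith

end E5
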