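import Pool.Agent.Helper90.E5.PDL
import Pool.Agent.Helper49.E5.TRI

/-! MP_efd95c_co, wheels: directions at the vertices of a full family (for row RQ). -/

set_option autoImplicit false

open scoped MeasureTheory ENNReal
open Complex

namespace E5

variable {n M : ℕ} {c : Fin n → ℂ} {g : ℤ → Fin n} {a b : ℤ → ℝ}

theorem nsq90 (θ ρ ψ : ℝ) : ‖AX.e θ - (ρ : ℂ) * AX.e ψ‖ ^ 2 = 1 + ρ ^ 2 - 2 * ρ * Real.cos (θ - ψ) := by
  rw [Complex.sq_norm, Complex.normSq_apply, Complex.sub_re, Complex.sub_im, Complex.re_ofReal_mul,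
    Complex.im_ofReal_mul, we_re55, we_im55, we_re55, we_im55, Real.cos_sub]
  have h1 := Real.sin_sq_add_cos_sq θ
  have h2 := Real.sin_sq_add_cos_sq ψ
  linear_combination h1 + ρ ^ 2 * h2

theorem mem90 {i j : Fin n} {θ ρ ψ : ℝ} (h : θ ∈ AX.T 1 c i) (hρ : 0 < ρ)
    (e : c j - c i = (ρ : ℂ) * AX.e ψ) : ρ / 2 ≤ Real.cos (θ - ψ) := by
  have h1 : c i + ((1 : ℝ) : ℂ) * AX.e θ ∈ AX.K 1 c := h
  have h2 : dist (c i + ((1 : ℝ) : ℂ) * AX.e θ) (c j) ≤ 1 := Set.mem_iInter.1 h1 j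
  rw [dist_eq_norm] at h2
  have e2 : c i + ((1 : ℝ) : ℂ) * AX.e θ - c j = AX.e θ - (ρ : ℂ) * AX.e ψ := by
    rw [← e]; push_cast; ring
  rw [e2] at h2
  have h3 : ‖AX.e θ - (ρ : ℂ) * AX.e ψ‖ ^ 2 ≤ 1 := by
    have := norm_nonneg (AX.e θ - (ρ : ℂ) * AX.e ψ)
    nlinarith
  rw [nsq90] at h3
  by_contra hlt
  push Not at hlt
  nlinarith

/-- an interior direction -/
theorem dir90 (h : HD c M g a b) (k : ℤ) (hf : a k < b k) :
    ∃ s : ℝ, ∀ (j : Fin n) (ρ ψ : ℝ), 0 < ρ → c j - c (g k) = (ρ : ℂ) * AX.e ψ →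
      ρ / 2 < Real.cos (s - ψ) := by
  have hpi := Real.pi_pos
  have hb := h.ltpi k
  have ma : a k ∈ AX.T 1 c (g k) := (h.mem k (a k) le_rfl (by linarith)).2 hf.le
  have mb : b k ∈ AX.T 1 c (g k) := (h.mem k (b k) hf.le (by linarith)).2 le_rfl
  refine ⟨(a k + b k) / 2, fun j ρ ψ hρ e => ?_⟩
  have h1 := mem90 ma hρ e
  have h2 := mem90 mb hρ e
  have e1 : a k - ψ = ((a k + b k) / 2 - ψ) - (b k - a k) / 2 := by ring
  have e2 : b k - ψ = ((a k + b k) / 2 - ψ) + (b k - a k) / 2 := by ring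
  rw [e1, Real.cos_sub] at h1
  rw [e2, Real.cos_add] at h2
  have c1 : 0 < Real.cos ((b k - a k) / 2) :=
    Real.cos_pos_of_mem_Ioo ⟨by linarith, by linarith⟩
  have c2 : Real.cos ((b k - a k) / 2) < 1 := by
    rw [← Real.cos_zero]
    exact Real.cos_lt_cos_of_nonneg_of_le_pi le_rfl (by linarith) (by linarith)
  by_contra hlt
  push Not at hlt
  have h3 : ρ / 2 ≤ Real.cos ((a k + b k) / 2 - ψ) * Real.cos ((b k - a k) / 2) := by linarith
  have h4 : Real.cos ((a k + b k) / 2 - ψ) * Real.cos ((b k - a k) / 2) ≤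
      ρ / 2 * Real.cos ((b k - a k) / 2) := mul_le_mul_of_nonneg_right hlt c1.le
  nlinarith

/-- from the cosine to the angle -/
theorem near90 {y d : ℝ} (hy : |y| < 3 * Real.pi / 2) (hd0 : 0 < d) (hd1 : d < Real.pi / 2)
    (h : Real.sin d < Real.cos y) : |y| < Real.pi / 2 - d := by
  have hpi := Real.pi_pos
  have hs : 0 < Real.sin d := Real.sin_pos_of_pos_of_lt_pi hd0 (by linarith)
  rw [← Real.cos_abs y] at h
  have hab := abs_nonneg y
  by_contra hlt
  push Not at hlt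
  rcases le_or_gt |y| (Real.pi / 2) with h1 | h1
  · have h2 := Real.cos_le_cos_of_nonneg_of_le_pi (x := Real.pi / 2 - d) (y := |y|) (by linarith)
      (by linarith) hlt
    rw [Real.cos_pi_div_two_sub] at h2
    linarith
  · have h2 := Real.cos_nonpos_of_pi_div_two_le_of_le h1.le (by linarith : |y| ≤ Real.pi + Real.pi / 2)
    linarith

/-- the base direction -/
theorem base90 {s : ℝ} (h : 0 < Real.cos s) : ∃ t : ℝ, |t| < Real.pi / 2 ∧
    ∀ x, Real.cos (t - x) = Real.cos (s - x) := by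
  have hs1 := Real.neg_one_le_sin s
  have hs2 := Real.sin_le_one s
  have hsc := Real.sin_sq_add_cos_sq s
  have h1 : Real.sin (Real.arcsin (Real.sin s)) = Real.sin s := Real.sin_arcsin hs1 hs2
  have h2 : Real.cos (Real.arcsin (Real.sin s)) = Real.cos s := by
    rw [Real.cos_arcsin]
    have : 1 - Real.sin s ^ 2 = Real.cos s ^ 2 := by linarith
    rw [this, Real.sqrt_sq h.le]
  refine ⟨Real.arcsin (Real.sin s), ?_, fun x => ?_⟩
  · rw [abs_lt]
    constructor
    · refine Real.neg_pi_div_two_lt_arcsin.mpr ?_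
      nlinarith
    · refine Real.arcsin_lt_pi_div_two.mpr ?_
      nlinarith
  · rw [Real.cos_sub, Real.cos_sub, h1, h2]

/-- difference of two points in polar coordinates -/
theorem difL90 {r s θ ψ : ℝ} (hs : 0 < s) (h0 : 0 < θ) (h1 : θ < Real.pi) :
    (s : ℂ) * AX.e (ψ + θ) - (r : ℂ) * AX.e ψ =
      (ch r s θ : ℂ) * AX.e (ψ + Real.pi - un r s θ) := by
  obtain ⟨-, -, a3, a4⟩ := tri_un (r := r) hs h0 h1
  have e1 : AX.e (ψ + Real.pi - un r s θ) = - (AX.e ψ * AX.e (-un r s θ)) := by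
    rw [← we_add55, ← we_neg55]
    congr 1
    ring
  rw [e1, we_add55]
  have e2 : (s : ℂ) * AX.e θ - r = -((ch r s θ : ℂ) * AX.e (-un r s θ)) := by
    apply Complex.ext
    · rw [Complex.sub_re, Complex.neg_re, Complex.re_ofReal_mul, Complex.re_ofReal_mul, we_re55,
        we_re55, Real.cos_neg, Complex.ofReal_re, ← a3]
      ring
    · rw [Complex.sub_im, Complex.neg_im, Complex.im_ofReal_mul, Complex.im_ofReal_mul, we_im55,
        we_im55, Real.sin_neg, Complex.ofReal_im]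
      linarith
  linear_combination AX.e ψ * e2

theorem difR90 {r s θ ψ : ℝ} (hs : 0 < s) (h0 : 0 < θ) (h1 : θ < Real.pi) :
    (s : ℂ) * AX.e (ψ - θ) - (r : ℂ) * AX.e ψ =
      (ch r s θ : ℂ) * AX.e (ψ + Real.pi + un r s θ) := by
  have h := congrArg (starRingEnd ℂ) (difL90 (r := r) (ψ := -ψ) hs h0 h1)
  simp only [map_sub, map_mul, Complex.conj_ofReal, we_conj55] at h
  have e1 : -(-ψ + θ) = ψ - θ := by ring
  have e2 : - -ψ = ψ := by ring
  have e3 : AX.e (-(-ψ + Real.pi - un r s θ)) = AX.e (ψ + Real.pi + un r s θ) := by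
    rw [← we_two55]
    congr 1
    ring
  rw [e1, e2, e3] at h
  exact h

/-- VERTEX DATA -/
theorem vtx90 (h : HD c M g a b) {k : ℤ} (hf : a k < b k) {o : Fin n} (ho : c o = 0) {r ψ : ℝ}
    (hr : 0 < r) (hc : c (g k) = (r : ℂ) * AX.e ψ) :
    ∃ s : ℝ, r < 2 ∧ |s| < Real.pi / 2 - h0 r ∧
      (∀ (j : Fin n) (t θ : ℝ), 0 < t → 0 < θ → θ < Real.pi → c j = (t : ℂ) * AX.e (ψ + θ) →
        ch r t θ < 2 ∧ |s + un r t θ| < Real.pi / 2 - hd r t θ) ∧
      (∀ (j : Fin n) (t θ : ℝ), 0 < t → 0 < θ → θ < Real.pi → c j = (t : ℂ) * AX.e (ψ - θ) →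
        ch r t θ < 2 ∧ |s - un r t θ| < Real.pi / 2 - hd r t θ) := by
  obtain ⟨S, hS⟩ := dir90 h k hf
  have hpi := Real.pi_pos
  have hub : c o - c (g k) = (r : ℂ) * AX.e (ψ + Real.pi) := by
    rw [ho, hc, we_neg55]; ring
  have h1 := hS o r (ψ + Real.pi) hr hub
  obtain ⟨s, hs1, hs2⟩ := base90 (s := S - (ψ + Real.pi)) (by linarith)
  have hr2 : r < 2 := by
    have := Real.cos_le_one (S - (ψ + Real.pi))
    linarith
  have hsr : Real.sin (h0 r) = r / 2 := by
    unfold h0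
    exact Real.sin_arcsin (by linarith) (by linarith)
  have hr0 : 0 < h0 r := Real.arcsin_pos.mpr (by linarith)
  have hrp : h0 r < Real.pi / 2 := Real.arcsin_lt_pi_div_two.mpr (by linarith)
  refine ⟨s, hr2, ?_, ?_, ?_⟩
  · refine near90 (by linarith) hr0 hrp ?_
    have := hs2 0
    rw [sub_zero, sub_zero] at this
    rw [hsr, this]
    exact h1
  · intro j t θ ht t0 t1 hj
    have hcp := tri_ch_pos (r := r) ht t0 t1
    obtain ⟨u0, u1, -, -⟩ := tri_un (r := r) ht t0 t1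
    have hd' : c j - c (g k) = (ch r t θ : ℂ) * AX.e (ψ + Real.pi - un r t θ) := by
      rw [hj, hc]
      exact difL90 ht t0 t1
    have h2 := hS j _ _ hcp hd'
    have h3 := hs2 (-un r t θ)
    have h4 : S - (ψ + Real.pi) - -un r t θ = S - (ψ + Real.pi - un r t θ) := by ring
    rw [h4, sub_neg_eq_add] at h3
    have hc2 : ch r t θ < 2 := by
      have := Real.cos_le_one (S - (ψ + Real.pi - un r t θ))
      linarith
    refine ⟨hc2, near90 ?_ (Real.arcsin_pos.mpr (by linarith))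
      (Real.arcsin_lt_pi_div_two.mpr (by linarith)) ?_⟩
    · rw [abs_lt] at hs1 ⊢
      constructor <;> linarith [hs1.1, hs1.2]
    · unfold hd
      rw [Real.sin_arcsin (by linarith) (by linarith), h3]
      exact h2
  · intro j t θ ht t0 t1 hj
    have hcp := tri_ch_pos (r := r) ht t0 t1
    obtain ⟨u0, u1, -, -⟩ := tri_un (r := r) ht t0 t1
    have hd' : c j - c (g k) = (ch r t θ : ℂ) * AX.e (ψ + Real.pi + un r t θ) := by
      rw [hj, hc]
      exact difR90 ht t0 t1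
    have h2 := hS j _ _ hcp hd'
    have h3 := hs2 (un r t θ)
    have h4 : S - (ψ + Real.pi) - un r t θ = S - (ψ + Real.pi + un r t θ) := by ring
    rw [h4] at h3
    have hc2 : ch r t θ < 2 := by
      have := Real.cos_le_one (S - (ψ + Real.pi + un r t θ))
      linarith
    refine ⟨hc2, near90 ?_ (Real.arcsin_pos.mpr (by linarith))
      (Real.arcsin_lt_pi_div_two.mpr (by linarith)) ?_⟩
    · rw [abs_lt] at hs1 ⊢
      constructor <;> linarith [hs1.1, hs1.2]
    · unfold hd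
      rw [Real.sin_arcsin (by linarith) (by linarith), h3]
      exact h2

/-- data at the hub -/
theorem hub90 (h : HD c M g a b) {k : ℤ} (hf : a k < b k) (ho : c (g k) = 0) {r ψ : ℝ} {i : Fin n}
    (hr : 0 < r) (hc : c i = (r : ℂ) * AX.e ψ) :
    ∃ s : ℝ, r < 2 ∧ |s| < Real.pi / 2 - h0 r ∧
      (∀ (j : Fin n) (t θ : ℝ), 0 < t → 0 < θ → θ < Real.pi → c j = (t : ℂ) * AX.e (ψ + θ) →
        t < 2 ∧ |s - θ| < Real.pi / 2 - h0 t) := by
  obtain ⟨S, hS⟩ := dir90 h k hf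
  have hpi := Real.pi_pos
  have h1 := hS i r ψ hr (by rw [ho, hc, sub_zero])
  obtain ⟨s, hs1, hs2⟩ := base90 (s := S - ψ) (by linarith)
  have key : ∀ (t θ : ℝ), 0 < t → t / 2 < Real.cos (s - θ) → |s - θ| < 3 * Real.pi / 2 →
      t < 2 ∧ |s - θ| < Real.pi / 2 - h0 t := by
    intro t θ ht h2 h3
    have ht2 : t < 2 := by
      have := Real.cos_le_one (s - θ)
      linarith
    refine ⟨ht2, near90 h3 (Real.arcsin_pos.mpr (by linarith))
      (Real.arcsin_lt_pi_div_two.mpr (by linarith)) ?_⟩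
    unfold h0
    rw [Real.sin_arcsin (by linarith) (by linarith)]
    exact h2
  have k0 := key r 0 hr (by rw [hs2 0, sub_zero]; exact h1) (by rw [sub_zero]; linarith)
  rw [sub_zero] at k0
  refine ⟨s, k0.1, k0.2, ?_⟩
  intro j t θ ht t0 t1 hj
  have h2 := hS j t (ψ + θ) ht (by rw [ho, hj, sub_zero])
  refine key t θ ht ?_ ?_
  · rw [hs2 θ]
    have : S - ψ - θ = S - (ψ + θ) := by ring
    rw [this]
    exact h2
  · rw [abs_lt] at hs1 ⊢
    constructor <;> linarith [hs1.1, hs1.2]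

/-- THE TRIANGLE INEQUALITY for half arcs in a full family -/
theorem tri90 (h : HD c M g a b) {k : ℤ} (hf : a k < b k) {j l : Fin n} (hj : c j ≠ c (g k))
    (hl : c l ≠ c (g k)) :
    AX.dl 1 (c j) (c l) < AX.dl 1 (c (g k)) (c j) + AX.dl 1 (c (g k)) (c l) := by
  obtain ⟨S, hS⟩ := dir90 h k hf
  have hpi := Real.pi_pos
  -- polar forms
  have pol : ∀ v : ℂ, v = (‖v‖ : ℂ) * AX.e (Complex.arg v) := fun v => by
    unfold AX.e
    exact (Complex.norm_mul_exp_arg_mul_I v).symm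
  have fact : ∀ m : Fin n, c m ≠ c (g k) → ∃ ρ ψ d : ℝ, 0 < ρ ∧ ρ < 2 ∧
      c m - c (g k) = (ρ : ℂ) * AX.e ψ ∧ ρ / 2 < Real.cos (S - ψ) ∧
      d = AX.dl 1 (c (g k)) (c m) ∧ Real.sin d = ρ / 2 ∧ 0 < d ∧ d < Real.pi / 2 ∧
      |Real.sin (S - ψ)| < Real.cos d := by
    intro m hm
    have hp : 0 < ‖c m - c (g k)‖ := norm_pos_iff.mpr (sub_ne_zero.mpr hm)
    have h1 := hS m _ _ hp (pol _)
    have h2 := Real.cos_le_one (S - Complex.arg (c m - c (g k)))
    have e1 : AX.dl 1 (c (g k)) (c m) = Real.arcsin (‖c m - c (g k)‖ / 2) := by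
      unfold AX.dl
      rw [mul_one, dist_comm, dist_eq_norm]
    have e2 : Real.sin (Real.arcsin (‖c m - c (g k)‖ / 2)) = ‖c m - c (g k)‖ / 2 :=
      Real.sin_arcsin (by linarith) (by linarith)
    have e3 := Real.arcsin_pos.mpr (by linarith : 0 < ‖c m - c (g k)‖ / 2)
    have e4 := Real.arcsin_lt_pi_div_two.mpr (by linarith : ‖c m - c (g k)‖ / 2 < 1)
    refine ⟨_, _, _, hp, by linarith, pol _, h1, e1.symm, e2, e3, e4, ?_⟩
    have c1 : 0 < Real.cos (Real.arcsin (‖c m - c (g k)‖ / 2)) :=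
      Real.cos_pos_of_mem_Ioo ⟨by linarith, e4⟩
    refine abs_lt_of_sq_lt_sq ?_ c1.le
    have s1 := Real.sin_sq_add_cos_sq (S - Complex.arg (c m - c (g k)))
    have s2 := Real.sin_sq_add_cos_sq (Real.arcsin (‖c m - c (g k)‖ / 2))
    rw [e2] at s2
    nlinarith
  obtain ⟨ρ, ψ, d, hρ, hρ2, ej, cj, dj, sj, d0, d1, aj⟩ := fact j hj
  obtain ⟨ρ', ψ', d', hρ', hρ2', el, cl, dl', sl, d0', d1', al⟩ := fact l hl
  rw [← dj, ← dl']
  -- the angle
  have hcos : -Real.cos (d + d') < Real.cos (ψ - ψ') := by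
    have e : ψ - ψ' = (S - ψ') - (S - ψ) := by ring
    rw [e, Real.cos_sub, Real.cos_add, sj, sl]
    have p1 : ρ / 2 * (ρ' / 2) < Real.cos (S - ψ') * Real.cos (S - ψ) := by
      have := mul_lt_mul'' cl cj (by linarith) (by linarith)
      linarith
    have p2 : -(Real.cos d * Real.cos d') < Real.sin (S - ψ') * Real.sin (S - ψ) := by
      have q1 : |Real.sin (S - ψ')| * |Real.sin (S - ψ)| < Real.cos d' * Real.cos d :=
        mul_lt_mul'' al aj (abs_nonneg _) (abs_nonneg _)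
      rw [← abs_mul] at q1
      have := neg_abs_le (Real.sin (S - ψ') * Real.sin (S - ψ))
      linarith
    linarith
  -- the distance
  have hdist : dist (c j) (c l) ^ 2 < (2 * Real.sin (d + d')) ^ 2 := by
    have e1 : c j - c l = (ρ : ℂ) * AX.e ψ - (ρ' : ℂ) * AX.e ψ' := by
      rw [← ej, ← el]; ring
    rw [dist_eq_norm, e1]
    have e2 : ‖(ρ : ℂ) * AX.e ψ - (ρ' : ℂ) * AX.e ψ'‖ ^ 2 =
        ρ ^ 2 + ρ' ^ 2 - 2 * ρ * ρ' * Real.cos (ψ - ψ') := by
      rw [Complex.sq_norm, Complex.normSq_apply, Complex.sub_re, Complex.sub_im,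
        Complex.re_ofReal_mul, Complex.im_ofReal_mul, Complex.re_ofReal_mul,
        Complex.im_ofReal_mul, we_re55, we_im55, we_re55, we_im55, Real.cos_sub]
      have h1 := Real.sin_sq_add_cos_sq ψ
      have h2 := Real.sin_sq_add_cos_sq ψ'
      linear_combination ρ ^ 2 * h1 + ρ' ^ 2 * h2
    rw [e2]
    have e3 : (2 * Real.sin (d + d')) ^ 2 = ρ ^ 2 + ρ' ^ 2 + 2 * ρ * ρ' * Real.cos (d + d') := by
      have s1 : ρ = 2 * Real.sin d := by linarith
      have s2 : ρ' = 2 * Real.sin d' := by linarith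
      rw [s1, s2, Real.sin_add, Real.cos_add]
      have h1 := Real.sin_sq_add_cos_sq d
      have h2 := Real.sin_sq_add_cos_sq d'
      have h3 : Real.cos d ^ 2 = 1 - Real.sin d ^ 2 := by linarith
      have h4 : Real.cos d' ^ 2 = 1 - Real.sin d' ^ 2 := by linarith
      have : (2 * (Real.sin d * Real.cos d' + Real.cos d * Real.sin d')) ^ 2 =
          4 * (Real.sin d ^ 2 * Real.cos d' ^ 2 + Real.cos d ^ 2 * Real.sin d' ^ 2 +
            2 * (Real.sin d * Real.sin d' * Real.cos d * Real.cos d')) := by ring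
      rw [this, h3, h4]
      ring
    rw [e3]
    have : 0 < 2 * ρ * ρ' := by positivity
    nlinarith
  have hsin0 : 0 < Real.sin (d + d') := Real.sin_pos_of_pos_of_lt_pi (by linarith) (by linarith)
  have hlt : dist (c j) (c l) < 2 * Real.sin (d + d') := by
    have := abs_lt_of_sq_lt_sq hdist (by linarith)
    rwa [abs_of_nonneg dist_nonneg] at this
  unfold AX.dl
  rw [mul_one]
  have hs1 := Real.sin_le_one (d + d')
  have hd0 : (0 : ℝ) ≤ dist (c j) (c l) := dist_nonneg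
  rcases le_or_gt (Real.pi / 2) (d + d') with h1 | h1
  · exact lt_of_lt_of_le (Real.arcsin_lt_pi_div_two.mpr (by linarith)) h1
  · rw [← Real.arcsin_sin (by linarith : -(Real.pi / 2) ≤ d + d') h1.le]
    exact Real.strictMonoOn_arcsin ⟨by linarith, by linarith⟩ ⟨by linarith, hs1⟩ (by linarith)

end E5
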